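import Pool.Agent.H.MP_36cdb9.H

set_option autoImplicit false
open Set Filter Topology Function

namespace Pool.Agent.H.MP_c2fecd

theorem gap {Γ : Type} [DecidableEq Γ] {G H : Finset Γ} (h : G.card = H.card) (ne : G ≠ H)
    {p : Γ → ℝ} {a b : ℝ} (hab : a ≤ b) (h1 : ∀ γ ∈ H, b ≤ p γ) (h2 : ∀ γ ∉ H, p γ ≤ a) :
    ∑ γ ∈ G, p γ ≤ ∑ γ ∈ H, p γ - (b - a) := by
  have e1 := Finset.sum_inter_add_sum_sdiff G H p
  have e2 := Finset.sum_inter_add_sum_sdiff H G p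
  have e3 := Finset.sum_le_card_nsmul (G \ H) p a fun γ hγ => h2 γ (Finset.mem_sdiff.1 hγ).2
  have e4 := Finset.card_nsmul_le_sum (H \ G) p b fun γ hγ => h1 γ (Finset.mem_sdiff.1 hγ).1
  have e5 : (1 : ℝ) ≤ (G \ H).card := by
    exact_mod_cast Finset.card_pos.2 (Finset.sdiff_nonempty.2 fun e =>
      ne (Finset.eq_of_subset_of_card_le e h.ge))
  rw [Finset.inter_comm] at e2
  rw [← Finset.card_sdiff_comm h] at e4
  simp only [nsmul_eq_mul] at e3 e4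
  nlinarith

variable {Y : Type} [NormedAddCommGroup Y] [NormedSpace ℝ Y]

theorem ziz {Γ : Type} (Φ : Γ → Set (Y →L[ℝ] ℝ)) (e : Γ → Y) (h0 : ∀ γ, 0 ∈ Φ γ)
    (h1 : ∀ γ, ∀ φ ∈ Φ γ, ‖φ‖ ≤ 1) (h2 : ∀ y, ∀ t > 0, {γ | ∃ φ ∈ Φ γ, t < φ y}.Finite)
    (h3 : ∀ y, y ∈ closure (Submodule.span ℝ (e '' {γ | ∃ φ ∈ Φ γ, 0 < φ y}) : Set Y)) :
    ∃ C : ℕ → Set Y, ∀ t, ∀ ε > 0, ∃ n, t ∈ C n ∧ ∃ (f : Y →L[ℝ] ℝ) (α : ℝ),
      α < f t ∧ ∀ c ∈ C n, α < f c → ‖c - t‖ ≤ ε := by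
  classical
  letI := linearOrderOfSTO (WellOrderingRel (α := Γ))
  obtain ⟨p, p1, p2⟩ : ∃ p : Γ → Y → ℝ, (∀ γ, ∀ φ ∈ Φ γ, ∀ y, φ y ≤ p γ y) ∧
      ∀ γ y, ∀ t < p γ y, ∃ φ ∈ Φ γ, t < φ y := by
    refine ⟨fun γ y => sSup ((fun φ => φ y) '' Φ γ), fun γ φ h y => le_csSup ⟨1 * ‖y‖, ?_⟩
      ⟨φ, h, rfl⟩, fun γ y t ht => ?_⟩
    · rintro _ ⟨ψ, h, rfl⟩
      exact (le_abs_self _).trans (ψ.le_of_opNorm_le (h1 γ ψ h) y)
    · obtain ⟨_, ⟨φ, h, rfl⟩, e⟩ := exists_lt_of_lt_csSup ⟨_, mem_image_of_mem _ (h0 γ)⟩ ht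
      exact ⟨φ, h, e⟩
  obtain ⟨E, hE⟩ := exists_surjective_nat (ℚ × ℚ × ℚ × ℚ × Σ k : ℕ, Fin k → ℚ)
  let A : ℚ × ℚ × ℚ × ℚ × (Σ k : ℕ, Fin k → ℚ) → Set Y := fun j => {z | ∃ (G : Finset Γ)
    (h : G.card = j.2.2.2.2.1), (∀ γ ∈ G, (j.2.1 : ℝ) ≤ p γ z) ∧ (∀ γ ∉ G, p γ z ≤ j.1) ∧
      ∑ γ ∈ G, p γ z ≤ j.2.2.1 ∧
      ‖z - ∑ i, (j.2.2.2.2.2 i : ℝ) • e (G.orderEmbOfFin h i)‖ ≤ j.2.2.2.1}
  refine ⟨fun n => A (E n), fun x ε hε => ?_⟩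
  obtain ⟨η, e0, e1⟩ := exists_rat_btwn (half_pos hε)
  obtain ⟨y, hy, e2⟩ := Metric.mem_closure_iff.1 (h3 x) η e0
  obtain ⟨l, hl, rfl⟩ := (Finsupp.mem_span_image_iff_linearCombination ℝ).1 hy
  obtain ⟨t, t0, t1⟩ : ∃ t > 0, ∀ γ ∈ l.support, t < p γ x := by
    have : ∀ᶠ t in 𝓝[>] (0 : ℝ), ∀ γ ∈ l.support, t < p γ x := (eventually_all_finset _).2
      fun γ hγ => nhdsWithin_le_nhds (gt_mem_nhds (by
        obtain ⟨φ, h, e⟩ := hl hγ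
        exact e.trans_le (p1 γ φ h x)))
    exact (eventually_mem_nhdsWithin.and this).exists
  obtain ⟨a, a0, a1⟩ := exists_rat_btwn t0
  let G := ((h2 x a a0).subset (t := {γ | a < p γ x}) fun γ h => p2 γ x a h).toFinset
  have hG : ∀ γ, γ ∈ G ↔ a < p γ x := fun γ => Finite.mem_toFinset _
  obtain ⟨b', b1, b2⟩ : ∃ b > (a : ℝ), ∀ γ ∈ G, b < p γ x :=
    (eventually_mem_nhdsWithin.and ((eventually_all_finset _).2 fun γ hγ =>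
      nhdsWithin_le_nhds (gt_mem_nhds ((hG γ).1 hγ)) :
        ∀ᶠ b in 𝓝[>] (a : ℝ), ∀ γ ∈ G, b < p γ x)).exists
  obtain ⟨b, b3, b4⟩ := exists_rat_btwn b1
  obtain ⟨s, s1, s2⟩ := exists_rat_btwn (lt_add_of_pos_right (∑ γ ∈ G, p γ x)
    (half_pos (sub_pos.2 b3)))
  obtain ⟨_, q1, q, rfl⟩ := (DenseRange.piMap fun _ : Fin G.card =>
    Rat.denseRange_cast (𝕜 := ℝ)).inter_open_nonempty
    {v | ‖x - ∑ i, v i • e (G.orderEmbOfFin rfl i)‖ < η} (isOpen_lt (by fun_prop) continuous_const)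
    ⟨fun i => l (G.orderEmbOfFin rfl i), by
      rw [dist_eq_norm, Finsupp.linearCombination_apply, l.sum_of_support_subset (s := G)
        (fun γ h => (hG γ).2 (a1.trans (t1 γ h))) _ (by simp), ← Finset.sum_coe_sort,
        ← (G.orderIsoOfFin rfl).toEquiv.sum_comp] at e2
      exact e2⟩
  obtain ⟨n, hn⟩ := hE (a, b, s, η, ⟨_, q⟩)
  have d0 : 0 < ((b : ℝ) - a) / 2 / (G.card + 1) := by have := sub_pos.2 b3; positivity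
  choose φ f1 f2 using fun γ => p2 γ x _ (sub_lt_self _ d0)
  refine ⟨n, ?_⟩
  simp only [hn]
  refine ⟨?_, ∑ γ ∈ G, φ γ, s - (b - a), ?_, ?_⟩
  · exact ⟨G, rfl, fun γ h => (b4.trans (b2 γ h)).le, fun γ h => not_lt.1 (mt (hG γ).2 h), s1.le,
      q1.le⟩
  · have := Finset.sum_le_sum (s := G) fun γ _ => (f2 γ).le
    have e3 := div_mul_cancel₀ (((b : ℝ) - a) / 2) (by positivity : (G.card + 1 : ℝ) ≠ 0)
    simp only [Finset.sum_sub_distrib, Finset.sum_const, nsmul_eq_mul] at this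
    rw [sum_apply]
    linarith
  · rintro c ⟨H, h, c1, c2, c3, c4⟩ c5
    obtain rfl : G = H := by
      by_contra ne
      have := gap h.symm ne b3.le c1 c2
      have := Finset.sum_le_sum (s := G) fun γ _ => p1 γ _ (f1 γ) c
      rw [sum_apply] at c5
      linarith
    have := norm_sub_le_norm_sub_add_norm_sub c
      (∑ i, (q i : ℝ) • e (G.orderEmbOfFin rfl i)) x
    have q2 : ‖∑ i, (q i : ℝ) • e (G.orderEmbOfFin rfl i) - x‖ < η :=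
      (norm_sub_rev _ _).trans_lt q1
    have q3 : ‖c - ∑ i, (q i : ℝ) • e (G.orderEmbOfFin rfl i)‖ ≤ η := c4
    linarith

end Pool.Agent.H.MP_c2fecd
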