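import Pool.Agent.H.MP_c2fecd.A
import Pool.Agent.Lib.helper23.Eke

set_option autoImplicit false
open Set Filter Topology Function

namespace Pool.Agent.H.MP_c2fecd

variable {M Z : Type} [MetricSpace M] [NormedAddCommGroup Z] [NormedSpace ℝ Z]

def Lp (K : ℝ) (h : M → ℝ) : Prop := ∀ x y, h x ≤ h y + K * dist x y

theorem Lp.max {K : ℝ} {f g : M → ℝ} (h : Lp K f) (k : Lp K g) : Lp K fun x => max (f x) (g x) :=
  fun x y => max_le (by linarith [h x y, le_max_left (f y) (g y)])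
    (by linarith [k x y, le_max_right (f y) (g y)])

theorem Lp.min {K : ℝ} {f g : M → ℝ} (h : Lp K f) (k : Lp K g) : Lp K fun x => min (f x) (g x) :=
  fun x y => sub_le_iff_le_add.1 (le_min (by linarith [h x y, min_le_left (f x) (g x)])
    (by linarith [k x y, min_le_right (f x) (g x)]))

theorem Lp.neg {K : ℝ} {f : M → ℝ} (h : Lp K f) : Lp K fun x => -f x :=
  fun x y => by linarith [h y x, dist_comm x y ▸ h y x]

theorem Lp.mono {K L : ℝ} {f : M → ℝ} (h : Lp K f) (e : K ≤ L) : Lp L f :=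
  fun x y => by linarith [h x y, mul_le_mul_of_nonneg_right e (dist_nonneg (x := x) (y := y))]

structure Fr (o : M) (d : M → Z) : Prop where
  dense : Dense (Submodule.span ℝ (range d) : Set Z)
  base : d o = 0
  lip : ∀ x y, ‖d x - d y‖ ≤ dist x y
  ext : ∀ (h : M → ℝ) (K : ℝ), 0 ≤ K → h o = 0 → Lp K h →
    ∃ φ : Z →L[ℝ] ℝ, ‖φ‖ ≤ K ∧ ∀ x, φ (d x) = h x

variable {o : M} {d : M → Z}

theorem Fr.lp (h : Fr o d) (φ : Z →L[ℝ] ℝ) : Lp ‖φ‖ fun x => φ (d x) := fun x y => by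
  have := (le_abs_self _).trans ((φ.le_opNorm (d x - d y)).trans
    (mul_le_mul_of_nonneg_left (h.lip x y) (norm_nonneg _)))
  rw [map_sub] at this
  linarith

theorem Fr.norm (h : Fr o d) (φ : Z →L[ℝ] ℝ) {K : ℝ} (hK : 0 ≤ K) (e : Lp K fun x => φ (d x)) :
    ‖φ‖ ≤ K := by
  obtain ⟨ψ, h1, h2⟩ := h.ext _ K hK (by simp [h.base]) e
  rwa [ContinuousLinearMap.ext_on h.dense (f := φ) (g := ψ) (by rintro _ ⟨x, rfl⟩; exact (h2 x).symm)]

theorem Fr.trunc (h : Fr o d) (φ : Z →L[ℝ] ℝ) {f : M → ℝ} (h1 : Lp 1 f) (h2 : f o = 0) :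
    ∃ ψ : Z →L[ℝ] ℝ, ‖ψ‖ ≤ ‖φ‖ + 1 ∧ ∀ x, ψ (d x) = max (min (φ (d x)) (f x)) (-f x) :=
  h.ext _ _ (by positivity) (by simp [h2]) ((((h.lp φ).mono (by linarith)).min
    (h1.mono (by linarith [norm_nonneg φ]))).max (h1.neg.mono (by linarith [norm_nonneg φ])))

def Kl (d : M → Z) (y : Z) (f : M → ℝ) : Prop :=
  ∀ φ : Z →L[ℝ] ℝ, (∀ x, |φ (d x)| ≤ f x) → φ y = 0

theorem Fr.add (h : Fr o d) {y : Z} {f g k : M → ℝ} (h1 : Lp 1 f) (h2 : f o = 0)
    (f0 : ∀ x, 0 ≤ f x) (g0 : ∀ x, 0 ≤ g x) (hf : Kl d y f) (hg : Kl d y g)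
    (e : ∀ x, k x ≤ f x + g x) : Kl d y k := fun φ hφ => by
  obtain ⟨ψ, -, p⟩ := h.trunc φ h1 h2
  have e1 := hf ψ fun x => by
    rw [p]
    exact abs_le.2 ⟨le_max_right _ _, max_le (min_le_right _ _) (by linarith [f0 x])⟩
  have e2 := hg (φ - ψ) fun x => by
    have := abs_le.1 ((hφ x).trans (e x))
    have := f0 x
    have := g0 x
    rw [sub_apply, p, abs_le]
    rcases le_total (φ (d x)) (f x) with a | a <;> rcases le_total (φ (d x)) (-f x) with b | b <;>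
      simp only [min_eq_left, min_eq_right, max_eq_left, max_eq_right, a, b,
        max_eq_left (neg_le_self (f0 x))] <;> constructor <;> linarith
  rwa [sub_apply, e1, sub_zero] at e2

theorem Fr.sup (h : Fr o d) {y : Z} {g : M → ℝ} (H : ∀ F : Finset M, ∀ ε > 0, ∃ f, Lp 1 f ∧
    f o = 0 ∧ (∀ x, 0 ≤ f x) ∧ Kl d y f ∧ ∀ x ∈ F, g x ≤ f x + ε) : Kl d y g := fun φ hφ => by
  refine abs_nonpos_iff.1 (le_of_forall_pos_le_add fun ε hε => ?_)
  obtain ⟨v, hv, e⟩ := Metric.mem_closure_iff.1 (h.dense y) (ε / 2 / (2 * ‖φ‖ + 1)) (by positivity)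
  obtain ⟨l, rfl⟩ := Finsupp.mem_span_range_iff_exists_finsupp.1 hv
  have p : 0 < ∑ x ∈ l.support, |l x| + 1 := by positivity
  obtain ⟨f, f1, f2, f3, f4, f5⟩ := H l.support (ε / 2 / (∑ x ∈ l.support, |l x| + 1))
    (by positivity)
  obtain ⟨ψ, p1, p2⟩ := h.trunc φ f1 f2
  have e1 := f4 ψ fun x => by
    rw [p2]
    exact abs_le.2 ⟨le_max_right _ _, max_le (min_le_right _ _) (by linarith [f3 x])⟩
  have e2 : |(φ - ψ) (l.sum fun x a => a • d x)| ≤ ε / 2 := by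
    rw [Finsupp.sum, map_sum]
    refine (Finset.abs_sum_le_sum_abs _ _).trans ((Finset.sum_le_sum (g := fun x => |l x| *
      (ε / 2 / (∑ x ∈ l.support, |l x| + 1))) fun x hx => ?_).trans ?_)
    · rw [map_smul, smul_eq_mul, abs_mul]
      refine mul_le_mul_of_nonneg_left ?_ (abs_nonneg _)
      have := abs_le.1 ((hφ x).trans (f5 x hx))
      have := f3 x
      have : 0 < ε / 2 / (∑ x ∈ l.support, |l x| + 1) := by positivity
      rw [sub_apply, p2, abs_le]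
      rcases le_total (φ (d x)) (f x) with a | a <;> rcases le_total (φ (d x)) (-f x) with b | b <;>
        simp only [min_eq_left, min_eq_right, max_eq_left, max_eq_right, a, b,
          max_eq_left (neg_le_self (f3 x))] <;> constructor <;> linarith
    · rw [← Finset.sum_mul, mul_div_assoc', div_le_iff₀ p]
      nlinarith
  have e3 := (φ - ψ).le_of_opNorm_le ((norm_sub_le _ _).trans (by linarith : _ ≤ 2 * ‖φ‖ + 1))
    (y - l.sum fun x a => a • d x)
  rw [dist_eq_norm, lt_div_iff₀ (by positivity)] at e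
  rw [map_sub, sub_apply, e1, sub_zero] at e3
  have := abs_sub_abs_le_abs_sub (φ y) ((φ - ψ) (l.sum fun x a => a • d x))
  rw [Real.norm_eq_abs] at e3
  linarith

theorem Fr.supp [CompleteSpace M] (h : Fr o d) (y : Z) (φ : Z →L[ℝ] ℝ) (H : ∀ x, φ (d x) ≠ 0 →
    ∃ r > 0, ∀ ψ : Z →L[ℝ] ℝ, (∀ z, r ≤ dist z x → ψ (d z) = 0) → ψ y = 0) : φ y = 0 := by
  let S := {f : M → ℝ | Lp 1 f ∧ (∀ x, 0 ≤ f x) ∧ (∀ x, φ (d x) = 0 → f x = 0) ∧ Kl d y f}
  have o0 : φ (d o) = 0 := by rw [h.base, map_zero]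
  have s0 : 0 ∈ S := ⟨fun x y => by simp, fun _ => le_rfl, fun _ _ => rfl, fun ψ hψ => by
    rw [ContinuousLinearMap.ext_on h.dense (f := ψ) (g := 0) (by
      rintro _ ⟨x, rfl⟩; exact abs_nonpos_iff.1 (hψ x))]; rfl⟩
  have s1 : ∀ f ∈ S, ∀ g ∈ S, (fun x => max (f x) (g x)) ∈ S := fun f hf g hg =>
    ⟨hf.1.max hg.1, fun x => le_max_of_le_left (hf.2.1 x), fun x e => by
      simp [hf.2.2.1 x e, hg.2.2.1 x e], h.add hf.1 (hf.2.2.1 o o0) hf.2.1 hg.2.1 hf.2.2.2 hg.2.2.2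
      fun x => max_le_add_of_nonneg (hf.2.1 x) (hg.2.1 x)⟩
  obtain ⟨g, g1, g2⟩ : ∃ g : M → ℝ, (∀ f ∈ S, ∀ x, f x ≤ g x) ∧ ∀ x, ∀ t < g x, ∃ f ∈ S, t < f x := by
    refine ⟨fun x => sSup ((fun f => f x) '' S), fun f hf x => le_csSup ⟨dist x o, ?_⟩ ⟨f, hf, rfl⟩,
      fun x t ht => ?_⟩
    · rintro _ ⟨f, hf, rfl⟩
      simpa [hf.2.2.1 o o0] using hf.1 x o
    · obtain ⟨_, ⟨f, hf, rfl⟩, e⟩ := exists_lt_of_lt_csSup ⟨_, mem_image_of_mem _ s0⟩ ht
      exact ⟨f, hf, e⟩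
  have g3 : Lp 1 g := fun x z => le_of_forall_lt fun t ht => by
    obtain ⟨f, hf, e⟩ := g2 x t ht
    linarith [hf.1 x z, g1 f hf z]
  have g0 : ∀ x, 0 ≤ g x := g1 0 s0
  have g4 : ∀ x, φ (d x) = 0 → g x = 0 := fun x e => (le_of_forall_lt fun t ht => by
    obtain ⟨f, hf, e'⟩ := g2 x t ht
    rwa [hf.2.2.1 x e] at e').antisymm (g0 x)
  have g5 : Kl d y g := h.sup fun F ε hε => by
    have : ∃ f ∈ S, ∀ x ∈ F, g x ≤ f x + ε := by
      classical
      induction F using Finset.induction_on with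
      | empty => exact ⟨0, s0, by simp⟩
      | insert a F _ ih =>
        obtain ⟨f, hf, e⟩ := ih
        obtain ⟨k, hk, e'⟩ := g2 a _ (sub_lt_self _ hε)
        refine ⟨_, s1 f hf k hk, fun x hx => ?_⟩
        rcases Finset.mem_insert.1 hx with rfl | hx
        · linarith [le_max_right (f x) (k x)]
        · linarith [le_max_left (f x) (k x), e x hx]
    obtain ⟨f, hf, e⟩ := this
    exact ⟨f, hf.1, hf.2.2.1 o o0, hf.2.1, hf.2.2.2, e⟩
  have p : 0 < 2 * ‖φ‖ + 1 := by positivity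
  refine (mul_eq_zero.1 (g5 ((2 * ‖φ‖ + 1)⁻¹ • φ) fun x => ?_)).resolve_left (inv_pos.2 p).ne'
  obtain ⟨z, z1, z2⟩ := Lib.helper23.Eke.ekeland (fun x => -g x) (LipschitzWith.of_le_add
    (by simpa [Lp] using g3.neg)).continuous (B := 0) (fun v => by linarith [g0 v]) x one_half_pos
  have lp : ∀ u v, φ (d v) = 0 → |φ (d u)| ≤ ‖φ‖ * dist u v := fun u v e => abs_le.2
    ⟨by linarith [(h.lp φ).neg u v], by linarith [h.lp φ u v]⟩
  have z0 : φ (d z) = 0 := by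
    by_contra hc
    obtain ⟨r, r0, hr⟩ := H z hc
    obtain ⟨s, s0, s1, s2⟩ : ∃ s > 0, 2 * s ≤ r ∧ s * (2 * ‖φ‖ + 1) ≤ |φ (d z)| := by
      have := abs_pos.2 hc
      exact ⟨min (r / 2) (|φ (d z)| / (2 * ‖φ‖ + 1)), by positivity,
        by linarith [min_le_left (r / 2) (|φ (d z)| / (2 * ‖φ‖ + 1))],
        (le_div_iff₀ p).1 (min_le_right _ _)⟩
    have := g1 (fun v => max (g v) (g z + s - dist v z)) ⟨g3.max fun u v => by
      linarith [dist_triangle v u z, dist_comm u v], fun v => le_max_of_le_left (g0 v),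
      fun v e => by
        have e1 := lp z v e
        have e2 := z2 v
        have e3 : 2 * s ≤ dist z v := by
          by_contra hc
          nlinarith [norm_nonneg φ]
        rw [dist_comm] at e3
        dsimp only
        rw [g4 v e] at e2 ⊢
        exact max_eq_left (by linarith),
      h.add (g := fun v => max (s - dist v z / 2) 0) g3 (g4 o o0) g0 (fun v => le_max_right _ _) g5
        (fun ψ hψ => hr ψ fun v hv => abs_nonpos_iff.1 ((hψ v).trans (max_le (by linarith) le_rfl)))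
        fun v => max_le (by linarith [le_max_right (s - dist v z / 2) 0])
          (by linarith [le_max_left (s - dist v z / 2) 0, z2 v])⟩ z
    simp only [dist_self, sub_zero, max_le_iff] at this
    linarith [this.2]
  rw [smul_apply, smul_eq_mul, abs_mul, abs_of_pos (inv_pos.2 p), inv_mul_le_iff₀ p]
  rw [g4 z z0, dist_comm] at z1
  nlinarith [lp x z z0, norm_nonneg φ, g0 x]

end Pool.Agent.H.MP_c2fecd
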