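import Pool.Agent.H.MP_c2fecd.B
import Pool.Agent.Lib.helper23.LipA

set_option autoImplicit false
open Set Filter Topology Function

namespace Pool.Agent.H.MP_c2fecd

variable {M Z : Type} [MetricSpace M] [NormedAddCommGroup Z] [NormedSpace ℝ Z]

theorem stone (M : Type) [MetricSpace M] : ∃ V : ℕ → M → Set M,
    (∀ m s t x, x ∈ V m s → x ∈ V m t → s = t) ∧
    ∀ x, ∀ R > 0, ∃ m s, dist x s < R ∧ ∃ r > 0, ∀ z, dist z x < r → z ∈ V m s := by
  obtain ⟨_, _⟩ := exists_wellOrder M
  obtain ⟨e, he⟩ := exists_surjective_nat (ℚ × ℚ)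
  refine ⟨fun m s => {y | ∃ x, dist y x < (e m).2 / 2 ∧ dist x s ≤ (e m).1 - (e m).2 ∧
    ∀ t < s, ((e m).1 : ℝ) ≤ dist x t}, ?_, fun x R hR => ?_⟩
  · rintro m s t x ⟨a, a1, a2, a3⟩ ⟨b, b1, b2, b3⟩
    rcases lt_trichotomy s t with h | h | h
    · linarith [b3 s h, dist_triangle b a s, dist_triangle_left b a x]
    · exact h
    · linarith [a3 t h, dist_triangle a b t, dist_triangle_left a b x]
  · obtain ⟨a, a0, a1⟩ := exists_rat_btwn hR
    obtain ⟨s, s1, s2⟩ := WellFounded.has_min wellFounded_lt {s | dist x s < a}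
      ⟨x, by simpa using a0⟩
    obtain ⟨b, b0, b1⟩ := exists_rat_btwn (sub_pos.2 (show dist x s < a from s1))
    obtain ⟨m, hm⟩ := he (a, b)
    refine ⟨m, s, s1.trans a1, b / 2, half_pos b0, fun z hz => ⟨x, ?_⟩⟩
    simp only [hm]
    exact ⟨hz, by linarith, fun t ht => not_lt.1 fun h => s2 t h ht⟩

variable {o : M} {d : M → Z}

theorem Fr.slices [CompleteSpace M] (h : Fr o d) :
    ∃ C : ℕ → Set Z, ∀ t, ∀ ε > 0, ∃ n, t ∈ C n ∧ ∃ (f : Z →L[ℝ] ℝ) (α : ℝ),
      α < f t ∧ ∀ c ∈ C n, α < f c → ‖c - t‖ ≤ ε := by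
  classical
  obtain ⟨V, v1, v2⟩ := stone M
  refine ziz (Γ := ℕ × M) (fun γ => {φ | ‖φ‖ ≤ 1 / (γ.1 + 1) ∧ ∀ z ∉ V γ.1 γ.2, φ (d z) = 0})
    (fun γ => d γ.2) (fun γ => ⟨by rw [norm_zero]; positivity, fun _ _ => rfl⟩)
    (fun γ φ hφ => hφ.1.trans (div_le_one_of_le₀ (by simp) (by positivity))) (fun y t ht => ?_)
    fun y => ?_
  · obtain ⟨N, hN⟩ := exists_nat_gt (2 * ‖y‖ / t)
    rw [div_lt_iff₀ ht] at hN
    have : ∀ m : ℕ, {s | ∃ φ : Z →L[ℝ] ℝ, (‖φ‖ ≤ 1 / (m + 1) ∧ ∀ z ∉ V m s, φ (d z) = 0) ∧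
        t < φ y}.Finite := fun m => by
      by_contra hc
      obtain ⟨T, t1, t2⟩ := Set.Infinite.exists_subset_card_eq hc N
      choose! φ f1 f2 using fun s (hs : s ∈ T) => t1 hs
      have e1 := h.norm (∑ s ∈ T, φ s) two_pos.le fun x z => by
        have k : ∀ w, ∑ s ∈ T, (if w ∈ V m s then dist x z else 0) ≤ dist x z := fun w => by
          rw [← Finset.sum_filter, Finset.sum_const, nsmul_eq_mul]
          refine mul_le_of_le_one_left dist_nonneg (Nat.cast_le_one.2 (Finset.card_le_one.2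
            fun a ha b hb => v1 m a b w (Finset.mem_filter.1 ha).2 (Finset.mem_filter.1 hb).2))
        have := Finset.sum_le_sum (s := T) (f := fun s => φ s (d x)) (g := fun s => φ s (d z) +
          ((if x ∈ V m s then dist x z else 0) + if z ∈ V m s then dist x z else 0)) fun s hs => by
            have e := (h.lp (φ s)).mono ((f1 s hs).1.trans (div_le_one_of_le₀ (by simp)
              (by positivity))) x z
            have := dist_nonneg (x := x) (y := z)
            split_ifs with a b b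
            · linarith
            · linarith
            · linarith
            · simp [(f1 s hs).2 x a, (f1 s hs).2 z b]
        simp only [Finset.sum_add_distrib, sum_apply] at this ⊢
        linarith [k x, k z]
      have e2 := (le_abs_self _).trans ((∑ s ∈ T, φ s).le_of_opNorm_le e1 y)
      have e3 := Finset.card_nsmul_le_sum T (fun s => φ s y) t fun s hs => (f2 s hs).le
      rw [sum_apply] at e2
      rw [t2, nsmul_eq_mul] at e3
      linarith
    refine (((finite_lt_nat N).biUnion fun m _ => (this m).image (Prod.mk m))).subset ?_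
    rintro ⟨m, s⟩ ⟨φ, f1, f2⟩
    refine mem_biUnion (x := m) (not_le.1 fun e => ?_ : m < N) ⟨s, ⟨φ, f1, f2⟩, rfl⟩
    have e1 := f2.trans_le ((le_abs_self _).trans (φ.le_of_opNorm_le f1.1 y))
    have e2 : (N : ℝ) ≤ m := by exact_mod_cast e
    rw [one_div, lt_inv_mul_iff₀ (by positivity)] at e1
    nlinarith [norm_nonneg y]
  · by_contra hc
    obtain ⟨φ, u, f1, f2⟩ := geometric_hahn_banach_closed_point
      (Submodule.convex _).closure isClosed_closure hc
    have u0 := f1 0 (subset_closure (Submodule.zero_mem _))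
    rw [map_zero] at u0
    refine (u0.trans f2).ne' (h.supp y φ fun x hx => ?_)
    obtain ⟨R, R0, hR⟩ := Metric.eventually_nhds_iff.1 ((φ.continuous.comp
      (LipschitzWith.of_dist_le_mul (K := 1) fun a b => by
        simpa [dist_eq_norm] using h.lip a b).continuous).continuousAt.eventually_ne hx)
    obtain ⟨m, s, s1, r, r0, s2⟩ := v2 x R R0
    have k : ∀ ψ : Z →L[ℝ] ℝ, (∀ z, r ≤ dist z x → ψ (d z) = 0) → ψ y ≤ 0 := fun ψ hψ => by
      by_contra hy
      have p : 0 < ((m + 1) * (‖ψ‖ + 1))⁻¹ := by positivity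
      have e := f1 ((u / φ (d s)) • d s) (subset_closure (Submodule.smul_mem _ _
        (Submodule.subset_span ⟨(m, s), ⟨((m + 1) * (‖ψ‖ + 1))⁻¹ • ψ, ⟨by
          rw [norm_smul, Real.norm_of_nonneg p.le, mul_inv, mul_assoc, one_div]
          exact mul_le_of_le_one_right (by positivity) (inv_mul_le_one_of_le₀ (by linarith)
            (by positivity)), fun z hz => by
          rw [smul_apply, hψ z (not_lt.1 fun e => hz (s2 z e)), smul_zero]⟩,
          mul_pos p (not_le.1 hy)⟩, rfl⟩)))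
      rw [map_smul, smul_eq_mul, div_mul_cancel₀ _
        (show φ (d s) ≠ 0 from hR (dist_comm x s ▸ s1))] at e
      exact e.false
    exact ⟨r, r0, fun ψ hψ => (k ψ hψ).antisymm (neg_nonpos.1 (k (-ψ) fun z hz => by
      rw [neg_apply, hψ z hz, neg_zero]))⟩

open Lib.helper23.LF in
theorem fr_free (o : M) : Fr o (del o) := ⟨dense_del, isFree.base, isFree.norm_sub,
  fun f K hK f0 hf => by
    have k : ∀ x y, |f x - f y| ≤ K * dist x y := fun x y =>
      abs_le.2 ⟨by linarith [hf.neg x y], by linarith [hf x y]⟩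
    let g : Lip0 o := ⟨f, f0, K, hK, k⟩
    exact ⟨LinearMap.mkContinuous ((ContinuousLinearMap.apply ℝ ℝ g).toLinearMap ∘ₗ
      (Free o).subtype) K fun x => (isFree.le x g).trans ((mul_comm _ _).trans_le
        (mul_le_mul_of_nonneg_right (norm_le g hK k) (norm_nonneg x.1))),
      LinearMap.mkContinuous_norm_le _ hK _, fun x => rfl⟩⟩

end Pool.Agent.H.MP_c2fecd
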