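import Pool.Agent.H.MP_c2fecd.C
import Pool.Agent.Lib.helper23.LipDef2

set_option autoImplicit false
open Set Filter Topology Function

namespace Pool.Agent.H.MP_c2fecd

theorem day {Γ : Type} [Uncountable Γ] (N : lp (fun _ : Γ => ℝ) ⊤ → ℝ)
    (n1 : ∀ x y, N (x + y) ≤ N x + N y) (n2 : ∀ (a : ℝ) x, N (a • x) = |a| * N x) {C : ℝ}
    (hC : 0 < C) (n3 : ∀ x, N x ≤ C * ‖x‖) :
    ∃ x u, u ≠ 0 ∧ x + u ≠ 0 ∧ N (x + u) = N x ∧ N (x - u) = N x := by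
  classical
  let F : lp (fun _ : Γ => ℝ) ⊤ → Set (lp (fun _ : Γ => ℝ) ⊤) := fun x =>
    {y | (∀ γ, |y γ| ≤ 1) ∧ {γ | y γ ≠ 0}.Countable ∧ ∀ γ, x γ ≠ 0 → y γ = x γ}
  have tr : ∀ x y z, y ∈ F x → z ∈ F y → z ∈ F x := fun x y z h k => ⟨k.1, k.2.1, fun γ e => by
    rw [k.2.2 γ (by rwa [h.2.2 γ e]), h.2.2 γ e]⟩
  have : ∀ (x : F 0) (k : ℕ), ∃ y : F 0, y.1 ∈ F x ∧ ∀ z ∈ F x, N z - 1 / (k + 1) < N y := by
    intro x k
    obtain ⟨_, ⟨y, hy, rfl⟩, e⟩ := exists_lt_of_lt_csSup (s := N '' F x)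
      ⟨_, x, ⟨x.2.1, x.2.2.1, fun _ _ => rfl⟩, rfl⟩ (sub_lt_self _ (Nat.one_div_pos_of_nat (n := k)))
    refine ⟨⟨y, tr _ _ _ x.2 hy⟩, hy, fun z hz => lt_of_le_of_lt (sub_le_sub_right
      (le_csSup ⟨C * 1, ?_⟩ (mem_image_of_mem N hz)) _) e⟩
    rintro _ ⟨w, hw, rfl⟩
    exact (n3 w).trans (mul_le_mul_of_nonneg_left (lp.norm_le_of_forall_le one_pos.le hw.1) hC.le)
  choose s s1 s2 using this
  obtain ⟨x, hx⟩ : ∃ x : ℕ → F 0, ∀ k, x (k + 1) = s (x k) k :=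
    ⟨fun k => Nat.rec (motive := fun _ => F 0) ⟨0, by simp, by simp, by simp⟩
      (fun k y => s y k) k, fun _ => rfl⟩
  have mo : ∀ k j, k ≤ j → (x j).1 ∈ F (x k) := fun k j e => by
    induction e with
    | refl => exact ⟨(x k).2.1, (x k).2.2.1, fun _ _ => rfl⟩
    | step _ ih => exact tr _ _ _ ih (hx _ ▸ s1 _ _)
  have b : ∀ γ, |if h : ∃ k, (x k).1 γ ≠ 0 then (x h.choose).1 γ else 0| ≤ 1 := fun γ => by
    split_ifs
    exacts [(x _).2.1 γ, by simp]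
  obtain ⟨w, w1⟩ : ∃ w, ∀ k, w ∈ F (x k) := by
    refine ⟨⟨fun γ => if h : ∃ k, (x k).1 γ ≠ 0 then (x h.choose).1 γ else 0,
      memℓp_infty ⟨1, forall_mem_range.2 b⟩⟩, fun k => ⟨b, (countable_iUnion fun k =>
      (x k).2.2.1).mono fun γ h => mem_iUnion.2 (by_contra fun e => h (dif_neg e)), fun γ h => ?_⟩⟩
    have e : ∃ k, (x k).1 γ ≠ 0 := ⟨k, h⟩
    refine (dif_pos e).trans ?_
    rcases le_total k e.choose with f | f
    exacts [(mo _ _ f).2.2 γ h, ((mo _ _ f).2.2 γ e.choose_spec).symm]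
  have key : ∀ z, (∀ k, z ∈ F (x k)) → N z ≤ N w := fun z hz => by
    refine le_of_forall_pos_le_add fun ε hε => ?_
    obtain ⟨k, hk⟩ := exists_nat_one_div_lt (half_pos hε)
    have e1 := s2 (x k) k z (hz k)
    have c : ∀ γ, ((2 : ℝ) • (x (k + 1)).1 - w) γ =
        if (x (k + 1)).1 γ = 0 then -w γ else w γ := fun γ => by
      simp only [lp.coeFn_sub, lp.coeFn_smul, Pi.sub_apply, Pi.smul_apply, smul_eq_mul]
      split_ifs with h
      · simp [h]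
      · rw [(w1 _).2.2 γ h]; ring
    have e2 := s2 (x k) k ((2 : ℝ) • (x (k + 1)).1 - w) ⟨fun γ => by
      rw [c]; split_ifs <;> simpa using (w1 0).1 γ, Set.Countable.mono (fun γ h (e : w γ = 0) =>
        h (by rw [c]; simp [e])) (w1 0).2.1, fun γ h => by
      rw [c, if_neg (by rwa [(mo k _ k.le_succ).2.2 γ h]), (w1 k).2.2 γ h]⟩
    have e3 := n1 ((2 : ℝ) • (x (k + 1)).1 - w) w
    rw [sub_add_cancel, n2, abs_two] at e3
    rw [← hx] at e1 e2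
    linarith
  obtain ⟨γ, hγ⟩ : ∃ γ, w γ = 0 := by
    by_contra hc
    exact not_countable_univ ((w1 0).2.1.mono fun γ _ e => hc ⟨γ, e⟩)
  have k : ∀ t : ℝ, |t| ≤ 1 → N (w + lp.single ⊤ γ t) ≤ N w := fun t ht => key _ fun k => by
    have c : ∀ β ≠ γ, (w + lp.single (E := fun _ : Γ => ℝ) ⊤ γ t) β = w β := fun β e => by
      rw [lp.coeFn_add, Pi.add_apply, lp.single_apply_ne _ _ _ e, add_zero]
    refine ⟨fun β => ?_, ((w1 0).2.1.insert γ).mono fun β h => ?_, fun β h => ?_⟩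
    · rcases eq_or_ne β γ with rfl | e
      · simpa [hγ] using ht
      · rw [c β e]; exact (w1 0).1 β
    · rcases eq_or_ne β γ with rfl | e
      exacts [Or.inl rfl, Or.inr fun e' => h ((c β e).trans e')]
    · rw [c β (by rintro rfl; exact h (((w1 k).2.2 β h).symm.trans hγ)), (w1 k).2.2 β h]
  have k1 := k 1 (by simp)
  have k2 := k (-1) (by simp)
  rw [lp.single_neg, ← sub_eq_add_neg] at k2
  have k3 := n1 (w + lp.single ⊤ γ 1) (w - lp.single ⊤ γ 1)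
  rw [add_add_sub_cancel, ← two_smul ℝ, n2, abs_two] at k3
  refine ⟨w, lp.single ⊤ γ 1, fun e => ?_, fun e => ?_, by linarith, by linarith⟩ <;>
    simpa [hγ] using congrArg (fun v : lp (fun _ : Γ => ℝ) ⊤ => v γ) e

theorem bary {Γ Z : Type} [NormedAddCommGroup Z] [NormedSpace ℝ Z]
    {d : lp (fun _ : Γ => ℝ) ⊤ → Z} (h : Fr 0 d) :
    ∃ β : Z →L[ℝ] lp (fun _ : Γ => ℝ) ⊤, ∃ f : Z ≃ β.ker × lp (fun _ : Γ => ℝ) ⊤,
      LipschitzWith 2 f ∧ LipschitzWith 2 f.symm := by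
  choose φ f1 f2 using fun γ => h.ext (fun x => x γ) 1 one_pos.le rfl fun x y => by
    have := (le_abs_self _).trans (lp.norm_apply_le_norm (by simp) (x - y) γ)
    rw [dist_eq_norm]
    simp only [lp.coeFn_sub, Pi.sub_apply] at this
    linarith
  have b : ∀ z γ, ‖φ γ z‖ ≤ 1 * ‖z‖ := fun z γ => (φ γ).le_of_opNorm_le (f1 γ) z
  obtain ⟨β, b1, b2⟩ : ∃ β : Z →L[ℝ] lp (fun _ : Γ => ℝ) ⊤, (∀ z, ‖β z‖ ≤ 1 * ‖z‖) ∧
      ∀ x, β (d x) = x :=
    have k := fun z => lp.norm_le_of_forall_le (f := (⟨fun γ => φ γ z, memℓp_infty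
      ⟨_, forall_mem_range.2 (b z)⟩⟩ : lp (fun _ : Γ => ℝ) ⊤)) (by positivity) (b z)
    ⟨LinearMap.mkContinuous ⟨⟨fun z => ⟨fun γ => φ γ z, memℓp_infty ⟨_, forall_mem_range.2 (b z)⟩⟩,
      fun x y => lp.ext (funext fun γ => map_add _ _ _)⟩,
      fun a x => lp.ext (funext fun γ => map_smul _ _ _)⟩ 1 k, k,
      fun x => lp.ext (funext fun γ => f2 γ x)⟩
  refine ⟨β, ⟨fun z => (⟨z - d (β z), by simp [b2]⟩, β z), fun p => p.1.1 + d p.2, fun z => by simp,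
    fun p => ?_⟩, LipschitzWith.of_dist_le_mul fun z w => ?_,
    LipschitzWith.of_dist_le_mul fun p q => ?_⟩
  · have : β p.1.1 = 0 := p.1.2
    ext1 <;> simp [this, b2]
  · have e1 := b1 (z - w)
    have e2 := h.lip (β z) (β w)
    have e3 := norm_sub_le (z - w) (d (β z) - d (β w))
    rw [map_sub] at e1
    rw [sub_sub_sub_comm] at e3
    simp only [dist_eq_norm] at e2
    simp only [dist_eq_norm, NNReal.coe_ofNat]
    exact max_le (e3.trans (by linarith)) (e1.trans (by linarith [norm_nonneg (z - w)]))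
  · have e1 := norm_add_le (p.1.1 - q.1.1) (d p.2 - d q.2)
    have e2 := h.lip p.2 q.2
    have e3 := le_max_left (dist p.1 q.1) (dist p.2 q.2)
    have e4 := le_max_right (dist p.1 q.1) (dist p.2 q.2)
    rw [← add_sub_add_comm] at e1
    rw [← Prod.dist_eq] at e3 e4
    rw [Subtype.dist_eq, dist_eq_norm] at e3
    simp only [Equiv.coe_fn_symm_mk, dist_eq_norm (_ + _), NNReal.coe_ofNat]
    linarith

theorem Fr.lur {M Z : Type} [MetricSpace M] [CompleteSpace M] [NormedAddCommGroup Z]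
    [NormedSpace ℝ Z] {o : M} {d : M → Z} (h : Fr o d) : ∃ N : Z → ℝ,
      (∀ x y, N (x + y) ≤ N x + N y) ∧ (∀ (a : ℝ) x, N (a • x) = |a| * N x) ∧
      (∃ c C : ℝ, 0 < c ∧ 0 < C ∧ ∀ x, c * ‖x‖ ≤ N x ∧ N x ≤ C * ‖x‖) ∧
      (∀ x, N x = 1 → ∀ ε : ℝ, 0 < ε → ∃ δ : ℝ, 0 < δ ∧
        ∀ y, N y = 1 → 2 - δ < N (x + y) → N (x - y) < ε) := by
  obtain ⟨C, hC⟩ := h.slices
  obtain ⟨N, h1, h2, h3, h4⟩ := MP_36cdb9.mot C hC
  refine ⟨N, h2, h3, h1, fun x hx ε hε => ?_⟩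
  by_contra hc
  push Not at hc
  choose y y1 y2 y3 using fun n : ℕ => hc _ (Nat.one_div_pos_of_nat (n := n))
  obtain ⟨n, hn⟩ := ((h4 x y (by simp [hx, y1]) (by
    rw [hx, mul_one]
    refine tendsto_of_tendsto_of_tendsto_of_le_of_le ?_ tendsto_const_nhds (fun n => (y2 n).le)
      fun n => by linarith [h2 x (y n), y1 n]
    simpa using tendsto_one_div_add_atTop_nhds_zero_nat.const_sub (2 : ℝ))).eventually
    (gt_mem_nhds hε)).exists
  have := h3 (-1) (y n - x)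
  simp only [neg_smul, one_smul, neg_sub, abs_neg, abs_one, one_mul] at this
  linarith [y3 n]

end Pool.Agent.H.MP_c2fecd
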